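import Mathlib
import Pool.Agent.X44.GW.Width
set_option autoImplicit false
/-!
# MP_0b0399_co : diamond-free families in `[k]^5` with more than `(2 + 1/5) w_{k,5}` elements
-/
namespace Pool.Agent.Results.MP_0b0399_co.DimensionFive
open Finset Filter Topology

/-- The grid `[k]^d` with the componentwise order (coordinates `0, …, k-1`). -/
abbrev Grid (k d : ℕ) : Type := Fin d → Fin k

/-- The diamond `D_2`: the set `{0,1}²` with the componentwise order, that is
`(0,0) < (0,1), (1,0) < (1,1)` with `(0,1)` and `(1,0)` incomparable. -/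
abbrev Diamond : Type := Bool × Bool

/-- `F` contains a weak copy of the poset `P`. -/
def HasWeakCopy (P : Type) [LE P] {k d : ℕ} (F : Finset (Grid k d)) : Prop :=
  ∃ f : P → Grid k d, Function.Injective f ∧ (∀ p, f p ∈ F) ∧ ∀ p q, p ≤ q → f p ≤ f q

/-- `F` contains a strong (induced) copy of the poset `P`. -/
def HasStrongCopy (P : Type) [LE P] {k d : ℕ} (F : Finset (Grid k d)) : Prop :=
  ∃ f : P → Grid k d, Function.Injective f ∧ (∀ p, f p ∈ F) ∧ ∀ p q, p ≤ q ↔ f p ≤ f q

/-- The maximum size of a weak `P`-free family in `[k]^d`. -/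
noncomputable def La (k d : ℕ) (P : Type) [LE P] : ℕ :=
  sSup {n | ∃ F : Finset (Grid k d), ¬ HasWeakCopy P F ∧ F.card = n}

/-- The maximum size of a strong `P`-free family in `[k]^d`. -/
noncomputable def LaStar (k d : ℕ) (P : Type) [LE P] : ℕ :=
  sSup {n | ∃ F : Finset (Grid k d), ¬ HasStrongCopy P F ∧ F.card = n}

/-- The rank level `{x : x_1 + … + x_d = r}` of the grid. -/
def level (k d r : ℕ) : Finset (Grid k d) :=
  Finset.univ.filter (fun x => ∑ i, (x i : ℕ) = r)

/-- The size of the largest rank level of the grid. -/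
noncomputable def w (k d : ℕ) : ℕ := sSup {n | ∃ r, (level k d r).card = n}

/-- The width `w_{k,d}` of the grid: the maximum size of an antichain. -/
noncomputable def width (k d : ℕ) : ℕ :=
  sSup {n | ∃ F : Finset (Grid k d), IsAntichain (· ≤ ·) (F : Set (Grid k d)) ∧ F.card = n}

/-! ### the pattern -/

/-- the weights of the coordinates -/
def a (i : Fin 5) : ZMod 19 := ![0, 10, 2, 15, 12] i

def A : Finset (ZMod 19) := {8}ᶜ
def B : Finset (ZMod 19) := {1, 4, 5, 8, 10, 18}
def C : Finset (ZMod 19) := {1}ᶜ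

lemma pattern_ok : ∀ (x : ZMod 19) (i j : Fin 5), i ≠ j → x ∈ A → x + a i ∈ B → x + a j ∈ B →
    x + a i + a j ∉ C := by
  decide +kernel

lemma card_A : A.card = 18 := by decide +kernel
lemma card_B : B.card = 6 := by decide +kernel
lemma card_C : C.card = 18 := by decide +kernel

/-- the class of a point -/
def cl {k : ℕ} (x : Grid k 5) : ZMod 19 := ∑ i, a i * ((x i : ℕ) : ZMod 19)

def rk {k : ℕ} (x : Grid k 5) : ℕ := ∑ i, (x i : ℕ)

lemma mem_level {k r : ℕ} {x : Grid k 5} : x ∈ level k 5 r ↔ rk x = r := by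
  simp [level, rk]

/-- covering relation -/
lemma cover {k : ℕ} {x y : Grid k 5} (h : x ≤ y) (hr : rk y = rk x + 1) :
    ∃ i, (y i : ℕ) = x i + 1 ∧ ∀ j, j ≠ i → (y j : ℕ) = x j := by
  have hle : ∀ i, (x i : ℕ) ≤ y i := fun i => h i
  have h1 : ∑ i, ((y i : ℕ) - (x i : ℕ)) = 1 := by
    have h2 : ∑ i, ((y i : ℕ) - (x i : ℕ)) + ∑ i, (x i : ℕ) = ∑ i, (y i : ℕ) := by
      rw [← Finset.sum_add_distrib]
      apply Finset.sum_congr rfl
      intro i _
      have := hle i
      omega
    unfold rk at hr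
    omega
  obtain ⟨i, hi⟩ : ∃ i, (y i : ℕ) - (x i : ℕ) ≠ 0 := by
    by_contra hcon
    push Not at hcon
    rw [Finset.sum_eq_zero (fun i _ => hcon i)] at h1
    omega
  have h2 := Finset.add_sum_erase (Finset.univ) (fun i => (y i : ℕ) - (x i : ℕ)) (Finset.mem_univ i)
  have h3 : ∑ j ∈ Finset.univ.erase i, ((y j : ℕ) - (x j : ℕ)) = 0 := by omega
  rw [Finset.sum_eq_zero_iff] at h3
  refine ⟨i, by have := hle i; omega, fun j hj => ?_⟩
  have := h3 j (Finset.mem_erase.2 ⟨hj, Finset.mem_univ j⟩)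
  have := hle j
  omega

lemma cl_cover {k : ℕ} {x y : Grid k 5} {i : Fin 5} (h1 : (y i : ℕ) = x i + 1)
    (h2 : ∀ j, j ≠ i → (y j : ℕ) = x j) : cl y = cl x + a i := by
  unfold cl
  rw [← Finset.add_sum_erase _ _ (Finset.mem_univ i),
    ← Finset.add_sum_erase (Finset.univ) (fun i => a i * ((x i : ℕ) : ZMod 19)) (Finset.mem_univ i)]
  have h3 : ∑ j ∈ Finset.univ.erase i, a j * ((y j : ℕ) : ZMod 19) =
      ∑ j ∈ Finset.univ.erase i, a j * ((x j : ℕ) : ZMod 19) := by
    apply Finset.sum_congr rfl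
    intro j hj
    rw [h2 j (Finset.ne_of_mem_erase hj)]
  rw [h3, h1]
  push_cast
  ring

/-- the family -/
def fam (k r : ℕ) (g : ZMod 19) : Finset (Grid k 5) :=
  (level k 5 r).filter (fun x => cl x + g ∈ A) ∪
    ((level k 5 (r + 1)).filter (fun x => cl x + g ∈ B) ∪
      (level k 5 (r + 2)).filter (fun x => cl x + g ∈ C))

lemma mem_fam {k r : ℕ} {g : ZMod 19} {x : Grid k 5} : x ∈ fam k r g ↔
    (rk x = r ∧ cl x + g ∈ A) ∨ (rk x = r + 1 ∧ cl x + g ∈ B) ∨ (rk x = r + 2 ∧ cl x + g ∈ C) := by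
  simp [fam, mem_level]

lemma rk_lt {k : ℕ} {x y : Grid k 5} (h : x ≤ y) (hne : x ≠ y) : rk x < rk y := by
  unfold rk
  apply Finset.sum_lt_sum
  · intro i _
    exact h i
  · by_contra hcon
    push Not at hcon
    apply hne
    funext i
    apply Fin.ext
    have h1 := hcon i (Finset.mem_univ i)
    have h2 : (x i : ℕ) ≤ y i := h i
    omega

lemma fam_free (k r : ℕ) (g : ZMod 19) : ¬ HasWeakCopy Diamond (fam k r g) := by
  rintro ⟨f, hinj, hmem, hmono⟩
  have hab := hmono (false, false) (false, true) (by decide)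
  have hac := hmono (false, false) (true, false) (by decide)
  have hbe := hmono (false, true) (true, true) (by decide)
  have hce := hmono (true, false) (true, true) (by decide)
  have nab : f (false, false) ≠ f (false, true) := fun h => by simpa using hinj h
  have nac : f (false, false) ≠ f (true, false) := fun h => by simpa using hinj h
  have nbe : f (false, true) ≠ f (true, true) := fun h => by simpa using hinj h
  have nce : f (true, false) ≠ f (true, true) := fun h => by simpa using hinj h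
  have nbc : f (false, true) ≠ f (true, false) := fun h => by simpa using hinj h
  have ma := hmem (false, false)
  have mb := hmem (false, true)
  have mc := hmem (true, false)
  have me := hmem (true, true)
  generalize f (false, false) = p at *
  generalize f (false, true) = q at *
  generalize f (true, false) = s at *
  generalize f (true, true) = t at *
  clear hinj hmem hmono f
  have r1 := rk_lt hab nab
  have r2 := rk_lt hac nac
  have r3 := rk_lt hbe nbe
  have r4 := rk_lt hce nce
  rw [mem_fam] at ma mb mc me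
  have ra : rk p = r ∧ cl p + g ∈ A := by
    rcases ma with h | h | h
    · exact h
    · exfalso; rcases me with h' | h' | h' <;> omega
    · exfalso; rcases me with h' | h' | h' <;> omega
  have re : rk t = r + 2 ∧ cl t + g ∈ C := by
    rcases me with h | h | h
    · exfalso; omega
    · exfalso; omega
    · exact h
  have rb : rk q = r + 1 ∧ cl q + g ∈ B := by
    rcases mb with h | h | h
    · exfalso; omega
    · exact h
    · exfalso; omega
  have rc : rk s = r + 1 ∧ cl s + g ∈ B := by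
    rcases mc with h | h | h
    · exfalso; omega
    · exact h
    · exfalso; omega
  obtain ⟨i, hi1, hi2⟩ := cover hab (by omega)
  obtain ⟨j, hj1, hj2⟩ := cover hac (by omega)
  obtain ⟨l, hl1, hl2⟩ := cover hbe (by omega)
  have hij : i ≠ j := by
    rintro rfl
    apply nbc
    funext m
    apply Fin.ext
    by_cases hm : m = i
    · subst hm; omega
    · rw [hi2 m hm, hj2 m hm]
  have hlj : l = j := by
    by_contra hne
    have h1 := hl2 j (fun h => hne h.symm)
    have h2 : (s j : ℕ) ≤ t j := hce j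
    have h3 := hi2 j (fun h => hij h.symm)
    omega
  subst hlj
  have c1 := cl_cover hi1 hi2
  have c2 := cl_cover hj1 hj2
  have c3 := cl_cover hl1 hl2
  refine pattern_ok (cl p + g) i l hij ra.2 ?_ ?_ ?_
  · have := rb.2; rw [c1] at this; convert this using 1; ring
  · have := rc.2; rw [c2] at this; convert this using 1; ring
  · have := re.2; rw [c3, c1] at this; convert this using 1; ring

lemma sum_part (k r : ℕ) (D : Finset (ZMod 19)) :
    ∑ g : ZMod 19, ((level k 5 r).filter (fun x => cl x + g ∈ D)).card =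
      D.card * (level k 5 r).card := by
  classical
  have h1 : ∀ g : ZMod 19, ((level k 5 r).filter (fun x => cl x + g ∈ D)).card =
      ∑ x ∈ level k 5 r, if cl x + g ∈ D then 1 else 0 := by
    intro g
    rw [Finset.card_filter]
  simp only [h1]
  rw [Finset.sum_comm]
  have h2 : ∀ x ∈ level k 5 r, ∑ g : ZMod 19, (if cl x + g ∈ D then 1 else 0) = D.card := by
    intro x _
    refine (Equiv.sum_comp (Equiv.addLeft (cl x)) (fun g => if g ∈ D then 1 else 0)).trans ?_
    simp
  rw [Finset.sum_congr rfl h2, Finset.sum_const, smul_eq_mul, mul_comm]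

lemma card_fam (k r : ℕ) (g : ZMod 19) : (fam k r g).card =
    ((level k 5 r).filter (fun x => cl x + g ∈ A)).card +
    (((level k 5 (r + 1)).filter (fun x => cl x + g ∈ B)).card +
      ((level k 5 (r + 2)).filter (fun x => cl x + g ∈ C)).card) := by
  classical
  unfold fam
  rw [Finset.card_union_of_disjoint, Finset.card_union_of_disjoint]
  · rw [Finset.disjoint_left]
    intro x h1 h2
    rw [Finset.mem_filter, mem_level] at h1 h2
    omega
  · rw [Finset.disjoint_left]
    intro x h1 h2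
    rw [Finset.mem_filter, mem_level] at h1
    rw [Finset.mem_union, Finset.mem_filter, Finset.mem_filter, mem_level, mem_level] at h2
    rcases h2 with h2 | h2 <;> omega

lemma bddLa (k d : ℕ) (P : Type) [LE P] :
    BddAbove {n | ∃ F : Finset (Grid k d), ¬ HasWeakCopy P F ∧ F.card = n} := by
  refine ⟨Fintype.card (Grid k d), ?_⟩
  rintro n ⟨F, _, rfl⟩
  exact Finset.card_le_univ F

lemma bddLaStar (k d : ℕ) (P : Type) [LE P] :
    BddAbove {n | ∃ F : Finset (Grid k d), ¬ HasStrongCopy P F ∧ F.card = n} := by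
  refine ⟨Fintype.card (Grid k d), ?_⟩
  rintro n ⟨F, _, rfl⟩
  exact Finset.card_le_univ F

lemma bddw (k d : ℕ) : BddAbove {n | ∃ r, (level k d r).card = n} := by
  refine ⟨Fintype.card (Grid k d), ?_⟩
  rintro n ⟨r, rfl⟩
  exact Finset.card_le_univ _

lemma level_le_w (k d r : ℕ) : (level k d r).card ≤ w k d := le_csSup (bddw k d) ⟨r, rfl⟩

lemma exists_w (k d : ℕ) : ∃ r, (level k d r).card = w k d :=
  Nat.sSup_mem (s := {n | ∃ r, (level k d r).card = n}) ⟨_, 0, rfl⟩ (bddw k d)

lemma La_le_LaStar (k : ℕ) : La k 5 Diamond ≤ LaStar k 5 Diamond := by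
  apply csSup_le_csSup (bddLaStar k 5 Diamond)
  · exact ⟨_, fam k 0 0, fam_free k 0 0, rfl⟩
  · rintro n ⟨F, hF, rfl⟩
    refine ⟨F, ?_, rfl⟩
    rintro ⟨f, h1, h2, h3⟩
    exact hF ⟨f, h1, h2, fun p q => (h3 p q).1⟩

lemma La_lower (k r : ℕ) : 18 * (level k 5 r).card + 6 * (level k 5 (r + 1)).card +
    18 * (level k 5 (r + 2)).card ≤ 19 * La k 5 Diamond := by
  have h1 : ∑ g : ZMod 19, (fam k r g).card = 18 * (level k 5 r).card +
      (6 * (level k 5 (r + 1)).card + 18 * (level k 5 (r + 2)).card) := by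
    simp only [card_fam]
    rw [Finset.sum_add_distrib, Finset.sum_add_distrib, sum_part, sum_part, sum_part, card_A, card_B,
      card_C]
  have h2 : ∑ g : ZMod 19, (fam k r g).card ≤ ∑ g : ZMod 19, La k 5 Diamond := by
    apply Finset.sum_le_sum
    intro g _
    exact le_csSup (bddLa k 5 Diamond) ⟨fam k r g, fam_free k r g, rfl⟩
  rw [Finset.sum_const, Finset.card_univ, ZMod.card, smul_eq_mul] at h2
  omega

/-- consecutive levels -/
lemma level_step (k r : ℕ) : (level k 5 r).card ≤ (level k 5 (r + 1)).card + k ^ 3 := by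
  classical
  have hsplit := Finset.card_filter_add_card_filter_not (s := level k 5 r)
    (fun x : Grid k 5 => (x 0 : ℕ) + 1 < k)
  have h1 : ((level k 5 r).filter (fun x : Grid k 5 => (x 0 : ℕ) + 1 < k)).card ≤
      (level k 5 (r + 1)).card := by
    apply Finset.card_le_card_of_injOn
      (fun x : Grid k 5 => fun i => if h : i = 0 ∧ (x 0 : ℕ) + 1 < k then ⟨(x 0 : ℕ) + 1, h.2⟩ else x i)
    · intro x hx
      rw [Finset.mem_coe, Finset.mem_filter, mem_level] at hx
      rw [Finset.mem_coe, mem_level, ← hx.1]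
      unfold rk
      rw [Fin.sum_univ_succ, Fin.sum_univ_succ (fun i => ((x i : ℕ)))]
      simp only [hx.2, and_true, Fin.succ_ne_zero, dif_neg, not_false_eq_true, dif_pos]
      omega
    · intro x hx y hy hxy
      rw [Finset.mem_coe, Finset.mem_filter] at hx hy
      funext i
      have h := congrFun hxy i
      simp only at h
      by_cases hi : i = 0
      · subst hi
        rw [dif_pos ⟨rfl, hx.2⟩, dif_pos ⟨rfl, hy.2⟩] at h
        simp only [Fin.mk.injEq] at h
        apply Fin.ext
        omega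
      · rw [dif_neg (fun hh => hi hh.1), dif_neg (fun hh => hi hh.1)] at h
        exact h
  have h2 : ((level k 5 r).filter (fun x : Grid k 5 => ¬ (x 0 : ℕ) + 1 < k)).card ≤ k ^ 3 := by
    have h3 : Fintype.card (Fin k × Fin k × Fin k) = k ^ 3 := by
      simp only [Fintype.card_prod, Fintype.card_fin]; ring
    rw [← h3, ← Finset.card_univ]
    apply Finset.card_le_card_of_injOn (fun x : Grid k 5 => (x 1, x 2, x 3))
    · intro x _
      exact Finset.mem_coe.2 (Finset.mem_univ _)
    · intro x hx y hy hxy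
      rw [Finset.mem_coe, Finset.mem_filter, mem_level] at hx hy
      simp only [Prod.mk.injEq] at hxy
      obtain ⟨e1, e2, e3⟩ := hxy
      have e0 : x 0 = y 0 := by
        apply Fin.ext
        have := (x 0).2
        have := (y 0).2
        omega
      have e4 : x 4 = y 4 := by
        apply Fin.ext
        have hx1 := hx.1
        have hy1 := hy.1
        unfold rk at hx1 hy1
        rw [Fin.sum_univ_five] at hx1 hy1
        rw [e0, e1, e2, e3] at hx1
        omega
      funext i
      fin_cases i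
      · exact e0
      · exact e1
      · exact e2
      · exact e3
      · exact e4
  omega

lemma main_ineq (k : ℕ) : 42 * w k 5 ≤ 19 * La k 5 Diamond + 42 * k ^ 3 := by
  obtain ⟨r, hr⟩ := exists_w k 5
  have h1 := La_lower k r
  have h2 := level_step k r
  have h3 := level_step k (r + 1)
  have h4 : r + 1 + 1 = r + 2 := rfl
  rw [h4] at h3
  omega

lemma w_large (k : ℕ) : k ^ 4 ≤ 5 * w k 5 := by
  classical
  rcases Nat.eq_zero_or_pos k with rfl | hk
  · simp
  have h1 : Fintype.card (Grid k 5) = k ^ 5 := by simp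
  have h2 : (Finset.univ : Finset (Grid k 5)) ⊆ (Finset.range (5 * k)).biUnion (fun r => level k 5 r) := by
    intro x _
    rw [Finset.mem_biUnion]
    refine ⟨rk x, ?_, mem_level.2 rfl⟩
    rw [Finset.mem_range]
    unfold rk
    rw [Fin.sum_univ_five]
    have := (x 0).2
    have := (x 1).2
    have := (x 2).2
    have := (x 3).2
    have := (x 4).2
    omega
  have h3 := (Finset.card_le_card h2).trans Finset.card_biUnion_le
  rw [Finset.card_univ, h1] at h3
  have h4 : ∑ r ∈ Finset.range (5 * k), (level k 5 r).card ≤ ∑ r ∈ Finset.range (5 * k), w k 5 :=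
    Finset.sum_le_sum (fun r _ => level_le_w k 5 r)
  rw [Finset.sum_const, Finset.card_range, smul_eq_mul] at h4
  have h5 : k * k ^ 4 ≤ k * (5 * w k 5) := by
    calc k * k ^ 4 = k ^ 5 := by ring
      _ ≤ 5 * k * w k 5 := h3.trans h4
      _ = k * (5 * w k 5) := by ring
  exact Nat.le_of_mul_le_mul_left h5 hk

lemma ratio_lower (k : ℕ) (hk : 0 < k) :
    42 / 19 - 12 / (k : ℝ) ≤ (La k 5 Diamond : ℝ) / (w k 5 : ℝ) := by
  have h1 : (42 : ℝ) * w k 5 ≤ 19 * La k 5 Diamond + 42 * (k : ℝ) ^ 3 := by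
    exact_mod_cast main_ineq k
  have h2 : (k : ℝ) ^ 4 ≤ 5 * w k 5 := by exact_mod_cast w_large k
  have hk' : (0 : ℝ) < k := by exact_mod_cast hk
  have hw : (0 : ℝ) < w k 5 := by
    have : (0 : ℝ) < (k : ℝ) ^ 4 := by positivity
    linarith
  rw [le_div_iff₀ hw]
  have h3 : (k : ℝ) ^ 3 ≤ 5 * w k 5 / k := by
    rw [le_div_iff₀ hk']
    calc (k : ℝ) ^ 3 * k = (k : ℝ) ^ 4 := by ring
      _ ≤ _ := h2
  have h4 : 12 / (k : ℝ) * w k 5 = 12 / 5 * (5 * w k 5 / k) := by ring
  rw [sub_mul, h4]
  have h5 : 0 ≤ 5 * (w k 5 : ℝ) / k := by positivity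
  nlinarith

lemma not_tendsto (f : ℕ → ℝ) (hf : ∀ k : ℕ, 0 < k → 42 / 19 - 12 / (k : ℝ) ≤ f k) :
    ¬ Tendsto f atTop (𝓝 (2 + 1 / ((5 : ℕ) : ℝ))) := by
  intro h
  have h1 : Tendsto (fun k : ℕ => 42 / 19 - 12 / (k : ℝ)) atTop (𝓝 (42 / 19 - 0)) :=
    tendsto_const_nhds.sub (tendsto_const_nhds.div_atTop tendsto_natCast_atTop_atTop)
  have h2 := le_of_tendsto_of_tendsto h1 h (by
    filter_upwards [eventually_gt_atTop 0] with k hk using hf k hk)
  norm_num at h2

lemma bddwidth (k d : ℕ) :
    BddAbove {n | ∃ F : Finset (Grid k d), IsAntichain (· ≤ ·) (F : Set (Grid k d)) ∧ F.card = n} := by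
  refine ⟨Fintype.card (Grid k d), ?_⟩
  rintro n ⟨F, _, rfl⟩
  exact Finset.card_le_univ F

/-- The width of the grid is the size of a largest rank level. -/
theorem width_eq (k d : ℕ) (hk : 0 < k) : width k d = w k d := by
  apply le_antisymm
  · apply csSup_le
    · exact ⟨_, ∅, by simp, rfl⟩
    · rintro n ⟨F, hF, rfl⟩
      exact (Pool.Agent.X44.GW.antichain_le k d hk F hF).trans (level_le_w k d _)
  · obtain ⟨r, hr⟩ := exists_w k d
    rw [← hr]
    refine le_csSup (bddwidth k d) ⟨level k d r, ?_, rfl⟩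
    intro x hx y hy hne hle
    apply hne
    have h1 : ∑ i, (x i : ℕ) = r := by simpa [level] using hx
    have h2 : ∑ i, (y i : ℕ) = r := by simpa [level] using hy
    have h3 := (Finset.sum_eq_sum_iff_of_le (s := Finset.univ) (f := fun i => (x i : ℕ))
      (g := fun i => (y i : ℕ)) (fun i _ => hle i)).1 (h1.trans h2.symm)
    funext i
    exact Fin.ext (h3 i (Finset.mem_univ i))

lemma ratio_width (k : ℕ) (hk : 0 < k) :
    42 / 19 - 12 / (k : ℝ) ≤ (La k 5 Diamond : ℝ) / (width k 5 : ℝ) := by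
  rw [width_eq k 5 hk]
  exact ratio_lower k hk

/-- **More than `2 + 1/d` levels in dimension five.** The largest weak diamond-free families of
`[k]^5` have at least `(42/19 - 12/k) w_{k,5}` elements, where `w_{k,5}` is the width of `[k]^5`
(the maximum size of an antichain); so neither `La([k]^5, D_2)/w_{k,5}` nor
`La*([k]^5, D_2)/w_{k,5}` converges to `2 + 1/5`. -/
theorem result :
    (∀ k : ℕ, 0 < k → 42 / 19 - 12 / (k : ℝ) ≤ (La k 5 Diamond : ℝ) / (width k 5 : ℝ) ∧
      42 / 19 - 12 / (k : ℝ) ≤ (LaStar k 5 Diamond : ℝ) / (width k 5 : ℝ)) ∧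
    ¬ Tendsto (fun k : ℕ => (La k 5 Diamond : ℝ) / (width k 5 : ℝ)) atTop
      (𝓝 (2 + 1 / ((5 : ℕ) : ℝ))) ∧
    ¬ Tendsto (fun k : ℕ => (LaStar k 5 Diamond : ℝ) / (width k 5 : ℝ)) atTop
      (𝓝 (2 + 1 / ((5 : ℕ) : ℝ))) ∧
    ¬ (∀ d : ℕ, 2 ≤ d →
      Tendsto (fun k : ℕ => (La k d Diamond : ℝ) / (width k d : ℝ)) atTop (𝓝 (2 + 1 / (d : ℝ))) ∧
      Tendsto (fun k : ℕ => (LaStar k d Diamond : ℝ) / (width k d : ℝ)) atTop
        (𝓝 (2 + 1 / (d : ℝ)))) := by
  have h1 : ∀ k : ℕ, 0 < k →
      42 / 19 - 12 / (k : ℝ) ≤ (LaStar k 5 Diamond : ℝ) / (width k 5 : ℝ) := by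
    intro k hk
    refine (ratio_width k hk).trans ?_
    have : (La k 5 Diamond : ℝ) ≤ LaStar k 5 Diamond := by exact_mod_cast La_le_LaStar k
    gcongr
  refine ⟨fun k hk => ⟨ratio_width k hk, h1 k hk⟩, not_tendsto _ ratio_width, not_tendsto _ h1, ?_⟩
  intro h
  exact not_tendsto _ ratio_width (h 5 (by norm_num)).1

end Pool.Agent.Results.MP_0b0399_co.DimensionFive
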